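import Pool.Agent.helper67.DL.SpecG

/-!
# Project dl, module BY: the norm on `O` is constant and the rank two block is harmonic
-/

set_option autoImplicit false

namespace Pool.Agent.DL

open Matrix Complex
open scoped ComplexOrder Manifold ContDiff

/-- block diagonal matrix -/
def BY_emb (K : Matrix (Fin 2) (Fin 2) ℂ) (h : ℂ) : Matrix (Fin 3) (Fin 3) ℂ :=
  !![K 0 0, K 0 1, 0; K 1 0, K 1 1, 0; 0, 0, h]

theorem BY_mul (K K' : Matrix (Fin 2) (Fin 2) ℂ) (h h' : ℂ) :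
    BY_emb K h * BY_emb K' h' = BY_emb (K * K') (h * h') := by
  ext i j
  fin_cases i <;> fin_cases j <;> simp [BY_emb, Matrix.mul_apply, Fin.sum_univ_succ]

theorem BY_one : BY_emb 1 1 = 1 := by
  ext i j
  fin_cases i <;> fin_cases j <;> simp [BY_emb]

theorem BY_ct (K : Matrix (Fin 2) (Fin 2) ℂ) (h : ℂ) :
    (BY_emb K h)ᴴ = BY_emb Kᴴ (star h) := by
  ext i j
  fin_cases i <;> fin_cases j <;> simp [BY_emb, Matrix.conjTranspose_apply]

theorem BY_sub (K K' : Matrix (Fin 2) (Fin 2) ℂ) (h h' : ℂ) :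
    BY_emb K h - BY_emb K' h' = BY_emb (K - K') (h - h') := by
  ext i j
  fin_cases i <;> fin_cases j <;> simp [BY_emb]

theorem BY_smul (c : ℂ) (K : Matrix (Fin 2) (Fin 2) ℂ) (h : ℂ) :
    c • BY_emb K h = BY_emb (c • K) (c * h) := by
  ext i j
  fin_cases i <;> fin_cases j <;> simp [BY_emb]

theorem BY_inj {K K' : Matrix (Fin 2) (Fin 2) ℂ} {h h' : ℂ} (e : BY_emb K h = BY_emb K' h') :
    K = K' ∧ h = h' := by
  refine ⟨?_, ?_⟩
  · ext i j
    have h00 := congrFun (congrFun e 0) 0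
    have h01 := congrFun (congrFun e 0) 1
    have h10 := congrFun (congrFun e 1) 0
    have h11 := congrFun (congrFun e 1) 1
    simp [BY_emb] at h00 h01 h10 h11
    fin_cases i <;> fin_cases j <;> simp [h00, h01, h10, h11]
  · have h22 := congrFun (congrFun e 2) 2
    simpa [BY_emb] using h22

theorem BY_inv {K : Matrix (Fin 2) (Fin 2) ℂ} {h : ℂ} (hK : IsUnit K.det) (hh : h ≠ 0) :
    (BY_emb K h)⁻¹ = BY_emb K⁻¹ h⁻¹ := by
  refine Matrix.inv_eq_right_inv ?_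
  rw [BY_mul, Matrix.mul_nonsing_inv _ hK, mul_inv_cancel₀ hh, BY_one]

theorem BY_eta (M : Matrix (Fin 3) (Fin 3) ℂ) (h0 : M 0 2 = 0 ∧ M 1 2 = 0 ∧ M 2 0 = 0 ∧ M 2 1 = 0) :
    M = BY_emb !![M 0 0, M 0 1; M 1 0, M 1 1] (M 2 2) := by
  obtain ⟨h1, h2, h3, h4⟩ := h0
  ext i j
  fin_cases i <;> fin_cases j <;> simp [BY_emb, h1, h2, h3, h4]

theorem BY_pd {M : Matrix (Fin 3) (Fin 3) ℂ} (hM : M.PosDef) :
    (!![M 0 0, M 0 1; M 1 0, M 1 1] : Matrix (Fin 2) (Fin 2) ℂ).PosDef := by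
  have h := hM.submatrix (e := (![0, 1] : Fin 2 → Fin 3)) (by
    intro a b hab
    fin_cases a <;> fin_cases b <;> simp_all)
  have e : M.submatrix (![0, 1] : Fin 2 → Fin 3) ![0, 1] =
      !![M 0 0, M 0 1; M 1 0, M 1 1] := by
    ext i j
    fin_cases i <;> fin_cases j <;> simp
  rw [e] at h
  exact h

theorem BY_dz_congr {f g : ℂ → ℂ} {z : ℂ} (h : f =ᶠ[nhds z] g) : dz f z = dz g z := by
  unfold dz
  rw [h.fderiv_eq]

theorem BY_dzb_congr {f g : ℂ → ℂ} {z : ℂ} (h : f =ᶠ[nhds z] g) : dzb f z = dzb g z := by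
  unfold dzb
  rw [h.fderiv_eq]

theorem BY_dz_zero (z : ℂ) : dz (fun _ => 0) z = 0 := by
  unfold dz
  simp

theorem BY_dzb_zero (z : ℂ) : dzb (fun _ => 0) z = 0 := by
  unfold dzb
  simp

theorem BY_ev {Ω : Set ℂ} (hΩ : IsOpen Ω) {z : ℂ} (hz : z ∈ Ω) {f g : ℂ → ℂ}
    (h : ∀ w ∈ Ω, f w = g w) : f =ᶠ[nhds z] g :=
  Filter.eventually_of_mem (hΩ.mem_nhds hz) h

/-- Hitchin's equation for block diagonal data -/
theorem BY_block (Ω : Set ℂ) (hΩ : IsOpen Ω) (A₂ : ℂ → Matrix (Fin 2) (Fin 2) ℂ) (α : ℂ → ℂ)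
    (W : ℂ → ℝ) (H : ℂ → Matrix (Fin 3) (Fin 3) ℂ)
    (hL : LH 3 Ω (fun z => BY_emb (A₂ z) (α z)) W H)
    (h0 : ∀ z ∈ Ω, H z 0 2 = 0 ∧ H z 1 2 = 0 ∧ H z 2 0 = 0 ∧ H z 2 1 = 0) :
    LH 2 Ω A₂ W (fun z => !![H z 0 0, H z 0 1; H z 1 0, H z 1 1]) ∧
      ∀ z ∈ Ω, dzb (fun w => (H w 2 2)⁻¹ * dz (fun v => H v 2 2) w) z = 0 := by
  set K : ℂ → Matrix (Fin 2) (Fin 2) ℂ := fun z => !![H z 0 0, H z 0 1; H z 1 0, H z 1 1] with hK
  have hH : ∀ z ∈ Ω, H z = BY_emb (K z) (H z 2 2) := fun z hz => BY_eta _ (h0 z hz)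
  have hKp : ∀ z ∈ Ω, (K z).PosDef := fun z hz => BY_pd (hL.pos z hz)
  have hKu : ∀ z ∈ Ω, IsUnit (K z).det := fun z hz =>
    (Matrix.isUnit_iff_isUnit_det _).1 (hKp z hz).isUnit
  have hh : ∀ z ∈ Ω, H z 2 2 ≠ 0 := fun z hz => ((hL.pos z hz).diag_pos (i := 2)).ne'
  have hmdz : ∀ z ∈ Ω, mdz H z = BY_emb (mdz K z) (dz (fun v => H v 2 2) z) := by
    intro z hz
    have e02 : dz (fun w => H w 0 2) z = 0 := by
      rw [BY_dz_congr (BY_ev hΩ hz fun w hw => (h0 w hw).1), BY_dz_zero]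
    have e12 : dz (fun w => H w 1 2) z = 0 := by
      rw [BY_dz_congr (BY_ev hΩ hz fun w hw => (h0 w hw).2.1), BY_dz_zero]
    have e20 : dz (fun w => H w 2 0) z = 0 := by
      rw [BY_dz_congr (BY_ev hΩ hz fun w hw => (h0 w hw).2.2.1), BY_dz_zero]
    have e21 : dz (fun w => H w 2 1) z = 0 := by
      rw [BY_dz_congr (BY_ev hΩ hz fun w hw => (h0 w hw).2.2.2), BY_dz_zero]
    ext i j
    fin_cases i <;> fin_cases j <;> simp [BY_emb, mdz, hK, e02, e12, e20, e21]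
  have hprod : ∀ z ∈ Ω, (H z)⁻¹ * mdz H z =
      BY_emb ((K z)⁻¹ * mdz K z) ((H z 2 2)⁻¹ * dz (fun v => H v 2 2) z) := by
    intro z hz
    rw [hmdz z hz]
    conv_lhs => rw [hH z hz]
    rw [BY_inv (hKu z hz) (hh z hz), BY_mul]
  have hlhs : ∀ z ∈ Ω, mdzb (fun w => (H w)⁻¹ * mdz H w) z =
      BY_emb (mdzb (fun w => (K w)⁻¹ * mdz K w) z)
        (dzb (fun w => (H w 2 2)⁻¹ * dz (fun v => H v 2 2) w) z) := by
    intro z hz
    have key : ∀ a b : Fin 3, dzb (fun w => ((H w)⁻¹ * mdz H w) a b) z =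
        dzb (fun w => (BY_emb ((K w)⁻¹ * mdz K w)
          ((H w 2 2)⁻¹ * dz (fun v => H v 2 2) w)) a b) z := fun a b =>
      BY_dzb_congr (BY_ev hΩ hz fun w hw => by rw [hprod w hw])
    ext i j
    show dzb (fun w => ((H w)⁻¹ * mdz H w) i j) z = _
    rw [key]
    fin_cases i <;> fin_cases j <;> simp [BY_emb, mdzb, BY_dzb_zero]
  have hadj : ∀ z ∈ Ω, adj (H z) (BY_emb (A₂ z) (α z)) =
      BY_emb (adj (K z) (A₂ z)) ((H z 2 2)⁻¹ * star (α z) * H z 2 2) := by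
    intro z hz
    unfold adj
    conv_lhs => rw [hH z hz]
    rw [BY_inv (hKu z hz) (hh z hz), BY_ct, BY_mul, BY_mul]
  have heq : ∀ z ∈ Ω, mdzb (fun w => (K w)⁻¹ * mdz K w) z =
      ((W z : ℝ) : ℂ) • (A₂ z * adj (K z) (A₂ z) - adj (K z) (A₂ z) * A₂ z) ∧
      dzb (fun w => (H w 2 2)⁻¹ * dz (fun v => H v 2 2) w) z = 0 := by
    intro z hz
    have h1 : mdzb (fun w => (H w)⁻¹ * mdz H w) z = ((W z : ℝ) : ℂ) •
        (BY_emb (A₂ z) (α z) * adj (H z) (BY_emb (A₂ z) (α z)) -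
          adj (H z) (BY_emb (A₂ z) (α z)) * BY_emb (A₂ z) (α z)) := hL.eq z hz
    rw [hlhs z hz] at h1
    rw [hadj z hz, BY_mul, BY_mul, BY_sub, BY_smul] at h1
    obtain ⟨h2, h3⟩ := BY_inj h1
    refine ⟨h2, ?_⟩
    rw [h3]
    ring
  refine ⟨⟨hKp, ?_, fun z hz => (heq z hz).1⟩, fun z hz => (heq z hz).2⟩
  intro a b
  have s := hL.smooth
  fin_cases a <;> fin_cases b <;> simp [hK]
  · exact s 0 0
  · exact s 0 1
  · exact s 1 0
  · exact s 1 1

/-- the logarithm of the last entry is harmonic -/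
theorem BY_log (hLW : LW_stmt) (Ω : Set ℂ) (hΩ : IsOpen Ω) (h : ℂ → ℂ) (u : ℂ → ℝ)
    (hs : ContDiffOn ℝ 2 h Ω) (hpos : ∀ z ∈ Ω, 0 < (h z).re) (him : ∀ z ∈ Ω, (h z).im = 0)
    (hu : ∀ z ∈ Ω, u z = Real.log (h z).re)
    (hy : ∀ z ∈ Ω, dzb (fun w => (h w)⁻¹ * dz h w) z = 0) :
    ∀ z ∈ Ω, ContDiffAt ℝ 2 u z ∧ lap u z = 0 := by
  have hhA : ∀ z ∈ Ω, ContDiffAt ℝ 2 h z := fun z hz => hs.contDiffAt (hΩ.mem_nhds hz)
  have hNA : ∀ z ∈ Ω, ContDiffAt ℝ 2 (fun w => (h w).re) z := fun z hz =>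
    (Complex.reCLM.contDiff.contDiffAt (x := h z)).comp z (hhA z hz)
  have hre : ∀ z ∈ Ω, h z = (((h z).re : ℝ) : ℂ) := fun z hz => by
    apply Complex.ext
    · simp
    · simp [him z hz]
  have huA : ∀ z ∈ Ω, ContDiffAt ℝ 2 u z := by
    intro z hz
    have h1 : ContDiffAt ℝ 2 (fun w => Real.log (h w).re) z := (hNA z hz).log (hpos z hz).ne'
    exact h1.congr_of_eventuallyEq (Filter.eventually_of_mem (hΩ.mem_nhds hz) hu)
  intro z hz
  refine ⟨huA z hz, ?_⟩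
  have h1 := hLW u z (huA z hz)
  have h2 : dzb (fun w => dz (fun v => ((u v : ℝ) : ℂ)) w) z =
      dzb (fun w => (h w)⁻¹ * dz h w) z := by
    refine BY_dzb_congr (BY_ev hΩ hz ?_)
    intro w hw
    -- derivative of the logarithm
    have d1 : HasFDerivAt (fun v => (h v).re) (fderiv ℝ (fun v => (h v).re) w) w :=
      ((hNA w hw).differentiableAt (by norm_num)).hasFDerivAt
    have d2 : HasFDerivAt (fun v => Real.log (h v).re)
        ((h w).re⁻¹ • fderiv ℝ (fun v => (h v).re) w) w := d1.log (hpos w hw).ne'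
    have d3 : HasFDerivAt (fun v => ((Real.log (h v).re : ℝ) : ℂ))
        (Complex.ofRealCLM.comp ((h w).re⁻¹ • fderiv ℝ (fun v => (h v).re) w)) w :=
      Complex.ofRealCLM.hasFDerivAt.comp w d2
    have d4 : HasFDerivAt (fun v => (((h v).re : ℝ) : ℂ))
        (Complex.ofRealCLM.comp (fderiv ℝ (fun v => (h v).re) w)) w :=
      Complex.ofRealCLM.hasFDerivAt.comp w d1
    have e1 : (fun v => ((u v : ℝ) : ℂ)) =ᶠ[nhds w] fun v => ((Real.log (h v).re : ℝ) : ℂ) :=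
      BY_ev hΩ hw fun v hv => by rw [hu v hv]
    have e2 : h =ᶠ[nhds w] fun v => (((h v).re : ℝ) : ℂ) := BY_ev hΩ hw hre
    rw [BY_dz_congr e1, BY_dz_congr e2]
    unfold dz
    rw [d3.fderiv, d4.fderiv]
    conv_rhs => rw [hre w hw]
    simp only [ContinuousLinearMap.comp_apply, Complex.ofRealCLM_apply, _root_.smul_apply,
      smul_eq_mul, Complex.ofReal_mul, Complex.ofReal_inv]
    ring
  rw [h2, hy z hz] at h1
  exact_mod_cast h1

theorem BY_g {X : Type} [TopologicalSpace X] [ChartedSpace ℂ X] (D : CD X) (i j : Bool) (x : X) :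
    gB D i j x = BY_emb (gV D i j x) 1 := by
  cases i <;> cases j
  · exact BY_one.symm
  · ext a b
    fin_cases a <;> fin_cases b <;> simp [BY_emb, gB, gV]
  · ext a b
    fin_cases a <;> fin_cases b <;> simp [BY_emb, gB, gV]
  · exact BY_one.symm

theorem BY_A {X : Type} [TopologicalSpace X] [ChartedSpace ℂ X] (D : CD X) (a t : ℝ)
    (i : (cov D a).ι) (x : X) :
    (BB D a t).A i x = BY_emb ((BV D a t).A i x) (-2 * quo (sF D a t) ((cov D a).η i) 1 x) := by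
  ext a b
  fin_cases a <;> fin_cases b <;> rfl

/-- **BY**. -/
theorem BY (hLW : LW_stmt) (hSX : SX_stmt) : BY_stmt := by
  classical
  intro X _ _ D hT hD a t ha ht H hH h0
  obtain ⟨⟨hglue, hloc⟩, -⟩ := hH
  have hopen : ∀ i : (cov D a).ι, IsOpen ((cov D a).U i) := by
    intro i
    cases i
    · exact hD.open0
    · exact hD.open1
  set K : (cov D a).ι → X → Matrix (Fin 2) (Fin 2) ℂ :=
    fun i x => !![H i x 0 0, H i x 0 1; H i x 1 0, H i x 1 1] with hK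
  have hHK : ∀ i, ∀ x ∈ (cov D a).U i, H i x = BY_emb (K i x) (H i x 2 2) :=
    fun i x hx => BY_eta _ (h0 i x hx)
  -- glueing
  have hg : ∀ i j : (cov D a).ι, ∀ x ∈ (cov D a).U i ∩ (cov D a).U j,
      K j x = (gV D i j x)ᴴ * K i x * gV D i j x ∧ H j x 2 2 = H i x 2 2 := by
    intro i j x hx
    have h1 : H j x = (gB D i j x)ᴴ * H i x * gB D i j x := hglue i j x hx
    rw [BY_g, hHK i x hx.1, hHK j x hx.2, BY_ct, BY_mul, BY_mul] at h1
    obtain ⟨h2, h3⟩ := BY_inj h1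
    refine ⟨h2, ?_⟩
    rw [h3]
    simp
  -- the local statements
  have hOm : ∀ i : (cov D a).ι, ∀ e ∈ atlas ℂ X, IsOpen (e.target ∩ e.symm ⁻¹' (cov D a).U i) :=
    fun i e _ => e.isOpen_inter_preimage_symm (hopen i)
  have hblock : ∀ i : (cov D a).ι, ∀ e ∈ atlas ℂ X,
      LH 2 (e.target ∩ e.symm ⁻¹' (cov D a).U i) (fun z => (BV D a t).A i (e.symm z))
        (fun z => ‖(cov D a).η i e (e.symm z)‖ ^ 2) (fun z => K i (e.symm z)) ∧
      ∀ z ∈ e.target ∩ e.symm ⁻¹' (cov D a).U i,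
        dzb (fun w => (H i (e.symm w) 2 2)⁻¹ * dz (fun v => H i (e.symm v) 2 2) w) z = 0 := by
    intro i e he
    refine BY_block _ (hOm i e he) (fun z => (BV D a t).A i (e.symm z))
      (fun z => -2 * quo (sF D a t) ((cov D a).η i) 1 (e.symm z)) _ (fun z => H i (e.symm z))
      ?_ (fun z hz => h0 i _ hz.2)
    have h1 := hloc i e he
    have h2 : (fun z => (BB D a t).A i (e.symm z)) = fun z => BY_emb ((BV D a t).A i (e.symm z))
        (-2 * quo (sF D a t) ((cov D a).η i) 1 (e.symm z)) := funext fun z => BY_A D a t i _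
    rw [h2] at h1
    exact h1
  -- the last entry is positive
  have hpos : ∀ i, ∀ x ∈ (cov D a).U i, 0 < (H i x 2 2).re ∧ (H i x 2 2).im = 0 := by
    intro i x hx
    have h1 : (H i ((chartAt ℂ x).symm (chartAt ℂ x x))).PosDef :=
      (hloc i (chartAt ℂ x) (chart_mem_atlas ℂ x)).pos (chartAt ℂ x x)
      ⟨mem_chart_target ℂ x, by
        show (chartAt ℂ x).symm (chartAt ℂ x x) ∈ (cov D a).U i
        rw [(chartAt ℂ x).left_inv (mem_chart_source ℂ x)]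
        exact hx⟩
    rw [(chartAt ℂ x).left_inv (mem_chart_source ℂ x)] at h1
    have h2 := h1.diag_pos (i := 2)
    rw [Complex.lt_def] at h2
    exact ⟨h2.1, h2.2.symm⟩
  -- the global function
  set N : X → ℝ := fun x => Real.log (H (if x ∈ D.U0 then false else true : Bool) x 2 2).re with hN
  have hNi : ∀ i, ∀ x ∈ (cov D a).U i, N x = Real.log (H i x 2 2).re := by
    intro i x hx
    simp only [hN]
    by_cases hx0 : x ∈ D.U0
    · rw [if_pos hx0, (hg i false x ⟨hx, hx0⟩).2]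
    · have hx1 : x ∈ D.U1 := (hD.cover x).resolve_left hx0
      rw [if_neg hx0, (hg i true x ⟨hx, hx1⟩).2]
  have hconst : ∀ x y, N x = N y := by
    refine hSX X hT.2.1 hT.2.2.2 N fun e he => ?_
    have key : ∀ z ∈ e.target, ContDiffAt ℝ 2 (fun w => N (e.symm w)) z ∧
        lap (fun w => N (e.symm w)) z = 0 := by
      intro z hz
      have hi : ∃ i : (cov D a).ι, e.symm z ∈ (cov D a).U i := by
        rcases hD.cover (e.symm z) with h | h
        · exact ⟨false, h⟩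
        · exact ⟨true, h⟩
      obtain ⟨i, hi⟩ := hi
      exact BY_log hLW _ (hOm i e he) (fun w => H i (e.symm w) 2 2) (fun w => N (e.symm w))
        ((hloc i e he).smooth 2 2) (fun w hw => (hpos i _ hw.2).1) (fun w hw => (hpos i _ hw.2).2)
        (fun w hw => hNi i _ hw.2) (hblock i e he).2 z ⟨hz, hi⟩
    exact ⟨fun z hz => (key z hz).1.contDiffWithinAt, fun z hz => (key z hz).2.ge⟩
  refine ⟨⟨Real.exp (N D.x0), Real.exp_pos _, ?_⟩, ⟨fun i j x hx => (hg i j x hx).1,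
    fun i e he => (hblock i e he).1⟩⟩
  intro i x hx
  obtain ⟨p1, p2⟩ := hpos i x hx
  have h1 : Real.exp (N D.x0) = (H i x 2 2).re := by
    rw [hconst D.x0 x, hNi i x hx, Real.exp_log p1]
  rw [h1]
  apply Complex.ext
  · simp
  · simp [p2]

end Pool.Agent.DL
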