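import Pool.Agent.helper22.DL.SpecE2

/-!
# ECH: chain rule for the systems
-/

namespace Pool.Agent.DL

open Matrix Complex MeasureTheory Set Filter Topology
open scoped ComplexOrder Manifold ContDiff ComplexConjugate

noncomputable section

theorem ECH_lin (l : ℂ →L[ℝ] ℂ) (v : ℂ) :
    l v = (l 1 - I * l I) / 2 * v + (l 1 + I * l I) / 2 * conj v := by
  have h1 : v = (v.re : ℝ) • (1 : ℂ) + (v.im : ℝ) • I := by
    apply Complex.ext <;> simp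
  have h2 : l v = (v.re : ℂ) * l 1 + (v.im : ℂ) * l I := by
    conv_lhs => rw [h1]
    rw [map_add, map_smul, map_smul, Complex.real_smul, Complex.real_smul]
  have h3 : v + conj v = 2 * (v.re : ℂ) := by
    apply Complex.ext <;> simp
    ring
  have h4 : v - conj v = 2 * (v.im : ℂ) * I := by
    apply Complex.ext <;> simp
    ring
  have h5 : (l 1 - I * l I) / 2 * v + (l 1 + I * l I) / 2 * conj v =
      l 1 / 2 * (v + conj v) - I * l I / 2 * (v - conj v) := by ring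
  rw [h2, h5, h3, h4]
  have h6 : I * I = -1 := I_mul_I
  linear_combination ((v.im : ℂ) * l I) * h6

theorem ECH_fderiv {ψ : ℂ → ℂ} {z : ℂ} (hψ : DifferentiableAt ℂ ψ z) :
    HasFDerivAt ψ (fderiv ℝ ψ z) z ∧ ∀ v, fderiv ℝ ψ z v = deriv ψ z * v := by
  have h1 : HasFDerivAt ψ ((ContinuousLinearMap.toSpanSingleton ℂ (deriv ψ z)).restrictScalars ℝ) z :=
    hψ.hasDerivAt.hasFDerivAt.restrictScalars ℝ
  refine ⟨h1.differentiableAt.hasFDerivAt, fun v => ?_⟩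
  rw [h1.fderiv]
  simp [mul_comm]

theorem ECH_comp {f ψ : ℂ → ℂ} {z : ℂ} (hf : DifferentiableAt ℝ f (ψ z))
    (hψ : DifferentiableAt ℂ ψ z) :
    dz (fun w => f (ψ w)) z = dz f (ψ z) * deriv ψ z ∧
    dzb (fun w => f (ψ w)) z = dzb f (ψ z) * conj (deriv ψ z) := by
  obtain ⟨h1, h2⟩ := ECH_fderiv hψ
  have h3 : fderiv ℝ (fun w => f (ψ w)) z = (fderiv ℝ f (ψ z)).comp (fderiv ℝ ψ z) :=
    (hf.hasFDerivAt.comp z h1).fderiv
  have h4 : ∀ v, fderiv ℝ (fun w => f (ψ w)) z v =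
      dz f (ψ z) * (deriv ψ z * v) + dzb f (ψ z) * (conj (deriv ψ z) * conj v) := by
    intro v
    rw [h3, ContinuousLinearMap.comp_apply, h2, ECH_lin, map_mul]
    rfl
  have h6 : I * I = -1 := I_mul_I
  constructor
  · unfold dz
    rw [h4, h4]
    simp only [map_one, conj_I, mul_one]
    unfold dz dzb
    linear_combination (-(((fderiv ℝ f (ψ z)) 1 - I * (fderiv ℝ f (ψ z)) I) / 2 * deriv ψ z) / 2 +
      ((fderiv ℝ f (ψ z)) 1 + I * (fderiv ℝ f (ψ z)) I) / 2 * conj (deriv ψ z) / 2) * h6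
  · unfold dzb
    rw [h4, h4]
    simp only [map_one, conj_I, mul_one]
    unfold dz dzb
    linear_combination ((((fderiv ℝ f (ψ z)) 1 - I * (fderiv ℝ f (ψ z)) I) / 2 * deriv ψ z) / 2 -
      ((fderiv ℝ f (ψ z)) 1 + I * (fderiv ℝ f (ψ z)) I) / 2 * conj (deriv ψ z) / 2) * h6

theorem ECH_mul {f g : ℂ → ℂ} {z : ℂ} (hf : DifferentiableAt ℝ f z) (hg : DifferentiableAt ℝ g z) :
    dz (fun w => f w * g w) z = dz f z * g z + f z * dz g z ∧
    dzb (fun w => f w * g w) z = dzb f z * g z + f z * dzb g z := by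
  have h1 : ∀ v, fderiv ℝ (fun w => f w * g w) z v =
      f z * fderiv ℝ g z v + g z * fderiv ℝ f z v := by
    intro v
    rw [fderiv_fun_mul hf hg]
    simp [smul_eq_mul]
  constructor
  · unfold dz
    rw [h1, h1]
    ring
  · unfold dzb
    rw [h1, h1]
    ring

theorem ECH_hol {g : ℂ → ℂ} {z : ℂ} (hg : DifferentiableAt ℂ g z) : dzb g z = 0 := by
  unfold dzb
  rw [(ECH_fderiv hg).2, (ECH_fderiv hg).2]
  have h6 : I * I = -1 := I_mul_I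
  linear_combination (deriv g z / 2) * h6

theorem ECH_conj {g : ℂ → ℂ} {z : ℂ} (hg : DifferentiableAt ℂ g z) :
    DifferentiableAt ℝ (fun w => conj (g w)) z ∧ dz (fun w => conj (g w)) z = 0 := by
  obtain ⟨h1, h2⟩ := ECH_fderiv hg
  have h3 : HasFDerivAt (fun w => conj (g w))
      ((conjCLE : ℂ →L[ℝ] ℂ).comp (fderiv ℝ g z)) z :=
    (conjCLE : ℂ →L[ℝ] ℂ).hasFDerivAt.comp z h1
  refine ⟨h3.differentiableAt, ?_⟩
  unfold dz
  rw [h3.fderiv]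
  have h4 : ∀ v, ((conjCLE : ℂ →L[ℝ] ℂ).comp (fderiv ℝ g z)) v = conj (deriv g z * v) := by
    intro v
    rw [ContinuousLinearMap.comp_apply, h2]
    rfl
  rw [h4, h4, map_mul, map_mul, map_one, conj_I]
  have h6 : I * I = -1 := I_mul_I
  linear_combination (conj (deriv g z) / 2) * h6

theorem ECH_cg {f g : ℂ → ℂ} {z : ℂ} (h : f =ᶠ[𝓝 z] g) : dz f z = dz g z ∧ dzb f z = dzb g z := by
  constructor
  · unfold dz
    rw [h.fderiv_eq]
  · unfold dzb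
    rw [h.fderiv_eq]

theorem ECH_dd {f : ℂ → ℂ} {z : ℂ} (h : ContDiffAt ℝ 2 f z) :
    DifferentiableAt ℝ (fun w => dz f w) z ∧ DifferentiableAt ℝ (fun w => dzb f w) z := by
  have h1 : ContDiffAt ℝ 1 (fderiv ℝ f) z := h.fderiv_right (by norm_num)
  have h2 : DifferentiableAt ℝ (fderiv ℝ f) z := h1.differentiableAt (by norm_num)
  have h3 : ∀ v : ℂ, DifferentiableAt ℝ (fun w => fderiv ℝ f w v) z := fun v =>
    h2.clm_apply (differentiableAt_const v)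
  constructor
  · unfold dz
    simp only [div_eq_mul_inv]
    exact ((h3 1).sub ((h3 I).const_mul I)).mul_const (2 : ℂ)⁻¹
  · unfold dzb
    simp only [div_eq_mul_inv]
    exact ((h3 1).add ((h3 I).const_mul I)).mul_const (2 : ℂ)⁻¹

theorem ECH_sq (c : ℂ) : c * conj c = ((‖c‖ ^ 2 : ℝ) : ℂ) := by
  rw [Complex.mul_conj, Complex.normSq_eq_norm_sq]

/-- Data for the chain rule at a point. -/
theorem ECH_near {Ω : Set ℂ} {ψ : ℂ → ℂ} (hΩ : IsOpen Ω) (hψ : DifferentiableOn ℂ ψ Ω) {z : ℂ}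
    (hz : z ∈ Ω) : DifferentiableAt ℂ ψ z ∧ DifferentiableAt ℂ (deriv ψ) z := by
  refine ⟨hψ.differentiableAt (hΩ.mem_nhds hz), ?_⟩
  exact (hψ.deriv hΩ).differentiableAt (hΩ.mem_nhds hz)

theorem ECH_lap (hLW : LW_stmt) {Ω Ω' : Set ℂ} {ψ : ℂ → ℂ} (hΩ : IsOpen Ω) (hΩ' : IsOpen Ω')
    (hψ : DifferentiableOn ℂ ψ Ω) (hm : MapsTo ψ Ω Ω') {u : ℂ → ℝ} (hu : ContDiffOn ℝ 2 u Ω')
    (huψ : ContDiffOn ℝ 2 (fun y => u (ψ y)) Ω) {z : ℂ} (hz : z ∈ Ω) :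
    lap (fun y => u (ψ y)) z = lap u (ψ z) * ‖deriv ψ z‖ ^ 2 := by
  have hat : ∀ y ∈ Ω', ContDiffAt ℝ 2 u y := fun y hy => hu.contDiffAt (hΩ'.mem_nhds hy)
  have hatc : ∀ y ∈ Ω', ContDiffAt ℝ 2 (fun v => ((u v : ℝ) : ℂ)) y := fun y hy =>
    ofRealCLM.contDiff.contDiffAt.comp y (hat y hy)
  have h1 := hLW (fun y => u (ψ y)) z (huψ.contDiffAt (hΩ.mem_nhds hz))
  have h2 := hLW u (ψ z) (hat _ (hm hz))
  have h3 : (fun w => dz (fun v => ((u (ψ v) : ℝ) : ℂ)) w) =ᶠ[𝓝 z]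
      fun w => dz (fun v => ((u v : ℝ) : ℂ)) (ψ w) * deriv ψ w := by
    filter_upwards [hΩ.mem_nhds hz] with w hw
    exact (ECH_comp (f := fun v => ((u v : ℝ) : ℂ))
      ((hatc _ (hm hw)).differentiableAt (by norm_num)) (ECH_near hΩ hψ hw).1).1
  obtain ⟨n1, n2⟩ := ECH_near hΩ hψ hz
  have hd := (ECH_dd (hatc _ (hm hz))).1
  have hd' : DifferentiableAt ℝ (fun w => dz (fun v => ((u v : ℝ) : ℂ)) (ψ w)) z :=
    DifferentiableAt.comp z hd (ECH_fderiv n1).1.differentiableAt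
  apply Complex.ofReal_injective
  rw [h1, (ECH_cg h3).2, (ECH_mul hd' (ECH_fderiv n2).1.differentiableAt).2, ECH_hol n2,
    (ECH_comp hd n1).2, Complex.ofReal_mul, h2, ← ECH_sq]
  ring

/-- second equation -/
theorem ECH_e2 {Ω Ω' : Set ℂ} {ψ : ℂ → ℂ} (hΩ : IsOpen Ω)
    (hψ : DifferentiableOn ℂ ψ Ω) (hm : MapsTo ψ Ω Ω') {F G : ℂ → ℂ}
    (hF : ∀ y ∈ Ω', DifferentiableAt ℝ F y)
    (hG : ∀ y ∈ Ω, G y = F (ψ y) * conj (deriv ψ y)) {z : ℂ} (hz : z ∈ Ω) :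
    dz G z = dz F (ψ z) * ((‖deriv ψ z‖ ^ 2 : ℝ) : ℂ) := by
  obtain ⟨n1, n2⟩ := ECH_near hΩ hψ hz
  have h3 : G =ᶠ[𝓝 z] fun w => F (ψ w) * conj (deriv ψ w) := by
    filter_upwards [hΩ.mem_nhds hz] with w hw
    exact hG w hw
  have hd := hF _ (hm hz)
  have hd' : DifferentiableAt ℝ (fun w => F (ψ w)) z :=
    DifferentiableAt.comp z hd (ECH_fderiv n1).1.differentiableAt
  rw [(ECH_cg h3).1, (ECH_mul hd' (ECH_conj n2).1).1, (ECH_conj n2).2, (ECH_comp hd n1).1,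
    ← ECH_sq]
  ring

theorem ECH (hLW : LW_stmt) : ECH_stmt := by
  intro Ω Ω' ψ W W' p r s L b L' b' hΩ hΩ' hψ hm hW hS
  have hψ2 : ContDiffOn ℝ 2 ψ Ω :=
    ((hψ.contDiffOn hΩ : ContDiffOn ℂ 2 ψ Ω)).restrict_scalars ℝ
  have hcR : ∀ u : ℂ → ℝ, ContDiffOn ℝ 2 u Ω' → ContDiffOn ℝ 2 (fun y => u (ψ y)) Ω :=
    fun u hu => hu.comp hψ2 hm
  have hcC : ∀ u : ℂ → ℂ, ContDiffOn ℝ 2 u Ω' → ContDiffOn ℝ 2 (fun y => u (ψ y)) Ω :=
    fun u hu => hu.comp hψ2 hm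
  have hdzb : ∀ u : ℂ → ℂ, ContDiffOn ℝ 2 u Ω' → ∀ y ∈ Ω,
      dzb (fun w => u (ψ w)) y = dzb u (ψ y) * conj (deriv ψ y) := fun u hu y hy =>
    (ECH_comp ((hu.contDiffAt (hΩ'.mem_nhds (hm hy))).differentiableAt (by norm_num))
      (ECH_near hΩ hψ hy).1).2
  have hexp : ∀ y ∈ Ω', DifferentiableAt ℝ (fun w => ((Real.exp (L w) : ℝ) : ℂ)) y := by
    intro y hy
    have h1 : DifferentiableAt ℝ L y :=
      (hS.sL.contDiffAt (hΩ'.mem_nhds hy)).differentiableAt (by norm_num)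
    exact DifferentiableAt.comp y ofRealCLM.differentiableAt h1.exp
  have hdd : ∀ u : ℂ → ℂ, ContDiffOn ℝ 2 u Ω' → ∀ y ∈ Ω', DifferentiableAt ℝ (fun w => dzb u w) y :=
    fun u hu y hy => (ECH_dd (hu.contDiffAt (hΩ'.mem_nhds hy))).2
  have hnn : ∀ c : ℂ, ‖conj c‖ = ‖c‖ := fun c => RCLike.norm_conj c
  refine ⟨⟨hcR L hS.sL, hcC b hS.sb, ?_, ?_⟩, fun hT => ⟨hcR L' hT.sL, hcC b' hT.sb, ?_, ?_⟩⟩
  · intro z hz
    rw [ECH_lap hLW hΩ hΩ' hψ hm hS.sL (hcR L hS.sL) hz, hS.e1 _ (hm hz), hdzb b hS.sb z hz,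
      norm_mul, hnn, hW z hz]
    ring
  · intro z hz
    rw [ECH_e2 hΩ hψ hm (F := fun w => ((Real.exp (L w) : ℝ) : ℂ) * dzb b w)
      (fun y hy => (hexp y hy).mul (hdd b hS.sb y hy)) (fun y hy => ?_) hz, hS.e2 _ (hm hz),
      hW z hz]
    · push_cast
      ring
    · rw [hdzb b hS.sb y hy]
      ring
  · intro z hz
    rw [ECH_lap hLW hΩ hΩ' hψ hm hT.sL (hcR L' hT.sL) hz, hT.e1 _ (hm hz), hdzb b hS.sb z hz,
      hdzb b' hT.sb z hz, norm_mul, hnn, hW z hz]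
    have e : (conj (dzb b (ψ z) * conj (deriv ψ z)) * (dzb b' (ψ z) * conj (deriv ψ z))).re =
        (conj (dzb b (ψ z)) * dzb b' (ψ z)).re * ‖deriv ψ z‖ ^ 2 := by
      have e1 : conj (dzb b (ψ z) * conj (deriv ψ z)) * (dzb b' (ψ z) * conj (deriv ψ z)) =
          (conj (dzb b (ψ z)) * dzb b' (ψ z)) * ((‖deriv ψ z‖ ^ 2 : ℝ) : ℂ) := by
        rw [← ECH_sq, map_mul, Complex.conj_conj]
        ring
      rw [e1, Complex.re_mul_ofReal]
    rw [e]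
    ring
  · intro z hz
    have hL' : ∀ y ∈ Ω', DifferentiableAt ℝ (fun w => ((L' w : ℝ) : ℂ)) y := by
      intro y hy
      have h1 : DifferentiableAt ℝ L' y :=
        (hT.sL.contDiffAt (hΩ'.mem_nhds hy)).differentiableAt (by norm_num)
      exact DifferentiableAt.comp y ofRealCLM.differentiableAt h1
    rw [ECH_e2 hΩ hψ hm
      (F := fun w => ((Real.exp (L w) : ℝ) : ℂ) * (dzb b' w + L' w * dzb b w))
      (fun y hy => (hexp y hy).mul ((hdd b' hT.sb y hy).add ((hL' y hy).mul (hdd b hS.sb y hy))))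
      (fun y hy => ?_) hz, hT.e2 _ (hm hz), hW z hz]
    · push_cast
      ring
    · rw [hdzb b hS.sb y hy, hdzb b' hT.sb y hy]
      ring

end

end Pool.Agent.DL
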