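import Pool.Agent.helper67.DL.SpecL

/-!
# Project dl, module FP: bounds of the projection and of the inverse
-/

set_option autoImplicit false

namespace Pool.Agent.DL

open Matrix Complex
open scoped ComplexOrder

theorem FP_ss (t : ℝ) (z : ℂ) (ht : 1 ≤ t) : ‖ss t z‖ = t * ‖z‖ / 3 := by
  unfold ss
  rw [norm_div, norm_mul, norm_mul, Complex.norm_I, one_mul, Complex.norm_real,
    Real.norm_of_nonneg (by linarith)]
  norm_num

theorem FP_qq (t : ℝ) (z : ℂ) (ht : 1 ≤ t) : ‖qq t z‖ ≤ t ^ 2 * (1 + ‖z‖ ^ 2) := by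
  unfold qq
  rw [norm_mul, norm_pow, Complex.norm_real, Real.norm_of_nonneg (by linarith)]
  refine mul_le_mul_of_nonneg_left ?_ (by positivity)
  refine (norm_sub_le _ _).trans ?_
  rw [norm_one, norm_pow]

theorem FP (hMN : MN_stmt) (hM2 : M2_stmt) (hFA : FA_stmt) : FP_stmt := by
  intro t z H ht hH hA
  obtain ⟨m0, -, msmul, mtri, mmul, mone, mtr, -⟩ := hMN 3 H hH
  have ht0 : t ≠ 0 := by linarith
  have htp : 0 < t := by linarith
  obtain ⟨f1, f2, f3, f4, f5, f6, f7, -, -⟩ := hFA t z ht0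
  obtain ⟨g1, g2, -⟩ := hM2 H (AA t z) (GG t z) (ev t z) (cv t z) (-2 * ss t z) hH f1 f2 f3 f4 f5
  set X := 1 + ‖z‖ ^ 2 with hX
  have hX1 : 1 ≤ X := by
    have := sq_nonneg ‖z‖
    linarith
  have hzX : ‖z‖ ^ 2 ≤ X := by linarith
  have hs := FP_ss t z ht
  have hs2 : ‖ss t z‖ ^ 2 = t ^ 2 * ‖z‖ ^ 2 / 9 := by rw [hs]; ring
  have hq := FP_qq t z ht
  rw [← hX] at hq
  have hsX : ‖ss t z‖ ^ 2 ≤ t ^ 2 * X / 9 := by
    rw [hs2]
    have : t ^ 2 * ‖z‖ ^ 2 ≤ t ^ 2 * X := mul_le_mul_of_nonneg_left hzX (by positivity)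
    linarith
  set P := PP t z with hP
  have hc : ‖(1 / (t : ℂ) ^ 2)‖ ^ 2 = (1 / t ^ 2) ^ 2 := by
    rw [norm_div, norm_one, norm_pow, Complex.norm_real, Real.norm_of_nonneg htp.le]
  constructor
  · -- the projection
    set A1 := AA t z - ss t z • (1 : Matrix (Fin 3) (Fin 3) ℂ) with hA1
    have h1 : nn H A1 ≤ (151 / 3) * (t ^ 2 * X) := by
      have e1 : A1 = AA t z + (-(ss t z)) • (1 : Matrix (Fin 3) (Fin 3) ℂ) := by
        rw [hA1, neg_smul, sub_eq_add_neg]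
      rw [e1, mtr _ _ f7, norm_neg]
      push_cast
      nlinarith
    have h2 : nn H (A1 * A1) ≤ ((151 / 3) * (t ^ 2 * X)) ^ 2 := by
      refine (mmul _ _).trans ?_
      rw [sq]
      exact mul_le_mul h1 h1 (m0 _) (by positivity)
    have h3 : Real.sqrt (nn H (A1 * A1)) ≤ (151 / 3) * (t ^ 2 * X) := Real.sqrt_le_iff.2
      ⟨by positivity, h2⟩
    have h4 : nn H ((-(qq t z)) • (1 : Matrix (Fin 3) (Fin 3) ℂ)) ≤ ((7 / 4) * (t ^ 2 * X)) ^ 2 := by
      rw [msmul, mone, norm_neg]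
      have : ‖qq t z‖ ^ 2 ≤ (t ^ 2 * X) ^ 2 := pow_le_pow_left₀ (norm_nonneg _) hq 2
      push_cast
      nlinarith [sq_nonneg (t ^ 2 * X)]
    have h5 : Real.sqrt (nn H ((-(qq t z)) • (1 : Matrix (Fin 3) (Fin 3) ℂ))) ≤
        (7 / 4) * (t ^ 2 * X) := Real.sqrt_le_iff.2 ⟨by positivity, h4⟩
    have h6 := mtri (A1 * A1) ((-(qq t z)) • (1 : Matrix (Fin 3) (Fin 3) ℂ))
    have h7 : Real.sqrt (nn H (A1 * A1 + (-(qq t z)) • (1 : Matrix (Fin 3) (Fin 3) ℂ))) ≤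
        53 * (t ^ 2 * X) := by
      have : 0 ≤ t ^ 2 * X := by positivity
      linarith
    have h8 : nn H (A1 * A1 + (-(qq t z)) • (1 : Matrix (Fin 3) (Fin 3) ℂ)) ≤
        (53 * (t ^ 2 * X)) ^ 2 := (Real.sqrt_le_left (by positivity)).1 h7
    have e2 : P = (-(1 / (t : ℂ) ^ 2)) •
        (A1 * A1 + (-(qq t z)) • (1 : Matrix (Fin 3) (Fin 3) ℂ)) := by
      rw [f6, neg_smul (qq t z), ← sub_eq_add_neg]
    rw [e2, msmul, norm_neg, hc]
    calc (1 / t ^ 2) ^ 2 * nn H (A1 * A1 + (-(qq t z)) • (1 : Matrix (Fin 3) (Fin 3) ℂ))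
        ≤ (1 / t ^ 2) ^ 2 * (53 * (t ^ 2 * X)) ^ 2 :=
          mul_le_mul_of_nonneg_left h8 (by positivity)
      _ = (53 * X) ^ 2 := by field_simp
  · -- the inverse
    have hPv : vecMulVec (ev t z) (cv t z) = P := rfl
    rw [hPv] at g1 g2
    set m := nn H P with hm
    have e1 : GG t z = (1 / (t : ℂ) ^ 2) • ((AA t z + (2 * ss t z) • (1 : Matrix (Fin 3) (Fin 3) ℂ)) +
        (-(6 * ss t z)) • (1 - P)) := by
      unfold GG
      rw [← hP]
      congr 1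
      rw [neg_smul, ← sub_eq_add_neg]
      congr 1
      rw [sub_eq_add_neg, ← neg_smul]
      congr 2
      ring
    set Y1 := AA t z + (2 * ss t z) • (1 : Matrix (Fin 3) (Fin 3) ℂ) with hY1
    set Y2 := (-(6 * ss t z)) • (1 - P) with hY2
    have h1 : nn H Y1 ≤ (154 / 3) * (t ^ 2 * X) := by
      rw [hY1, mtr _ _ f7, norm_mul]
      have : ‖(2 : ℂ)‖ = 2 := by norm_num
      rw [this]
      push_cast
      nlinarith
    have h2 : nn H Y2 ≤ 4 * (t ^ 2 * X) * (m + 1) := by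
      rw [hY2, msmul, norm_neg, norm_mul, g2]
      have : ‖(6 : ℂ)‖ = 6 := by norm_num
      rw [this]
      refine mul_le_mul_of_nonneg_right ?_ (by linarith)
      nlinarith
    have h3 := mtri Y1 Y2
    have n1 := Real.sqrt_nonneg (nn H Y1)
    have n2 := Real.sqrt_nonneg (nn H Y2)
    have s1 := Real.sq_sqrt (m0 Y1)
    have s2 := Real.sq_sqrt (m0 Y2)
    have s3 := Real.sq_sqrt (m0 (Y1 + Y2))
    have h4 : nn H (Y1 + Y2) ≤ 60 * (t ^ 2 * X) * (m + 1) := by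
      rw [← s3]
      have h5 : Real.sqrt (nn H (Y1 + Y2)) ^ 2 ≤
          (Real.sqrt (nn H Y1) + Real.sqrt (nn H Y2)) ^ 2 :=
        pow_le_pow_left₀ (Real.sqrt_nonneg _) h3 2
      have h6 : (Real.sqrt (nn H Y1) + Real.sqrt (nn H Y2)) ^ 2 ≤
          (7 / 5) * nn H Y1 + (7 / 2) * nn H Y2 := by
        nlinarith [sq_nonneg (2 * Real.sqrt (nn H Y1) - 5 * Real.sqrt (nn H Y2))]
      have h7 : t ^ 2 * X * 2 ≤ t ^ 2 * X * (m + 1) :=
        mul_le_mul_of_nonneg_left (by linarith) (by positivity)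
      nlinarith
    rw [e1, msmul, hc]
    calc (1 / t ^ 2) ^ 2 * nn H (Y1 + Y2)
        ≤ (1 / t ^ 2) ^ 2 * (60 * (t ^ 2 * X) * (m + 1)) :=
          mul_le_mul_of_nonneg_left h4 (by positivity)
      _ = 60 / t ^ 2 * X * (m + 1) := by field_simp

end Pool.Agent.DL
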